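import Pool.Agent.H34.FQ.Targets

/-!
Row DVC of hfq_modules: there are few points over every `v`.
-/

set_option autoImplicit false

open Finset Pool.Agent.H32.RQ Pool.Agent.H34.FQ

namespace Pool.Agent.H27.FQ

theorem qf_cf {R : Type} [CommRing R] {s : ℕ} (f : Mon s → ℤ) (x : Fin s → ℤ) :
    ((qf f x : ℤ) : R) = qf (cf R f) (fun i => (x i : R)) := by
  unfold qf cf
  push_cast
  rfl

theorem qf_cf_self {s : ℕ} (f : Mon s → ℤ) (x : Fin s → ℤ) : qf (cf ℤ f) x = qf f x := by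
  unfold qf cf
  simp

theorem qf_bound {s : ℕ} (f : Mon s → ℤ) (x : Fin s → ℤ) (B : ℤ) (hx : ∀ i, |x i| ≤ B) :
    |qf f x| ≤ (∑ p, |f p|) * B ^ 2 := by
  unfold qf
  rw [sum_mul]
  refine (abs_sum_le_sum_abs _ _).trans (sum_le_sum fun p _ => ?_)
  rw [abs_mul, abs_mul, sq]
  exact mul_le_mul_of_nonneg_left (mul_le_mul (hx _) (hx _) (abs_nonneg _)
    ((abs_nonneg _).trans (hx p.1.1))) (abs_nonneg _)

theorem dvd_r {n : ℕ} {F : Mon (n + 2) → ℤ} (N : NF F) (l : ℕ) (e : Fin (n + 2) → ℤ)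
    (hl : (l : ℤ) ∣ e 0) (he : N.mu * e 0 * e 1 + qf N.q (cv (e 0) (vt e)) = 0) :
    (l : ℤ) ∣ qf N.r (vt e) := by
  rw [← ZMod.intCast_zmod_eq_zero_iff_dvd]
  have h0 : ((e 0 : ℤ) : ZMod l) = 0 := (ZMod.intCast_zmod_eq_zero_iff_dvd _ _).2 hl
  have h1 := congrArg (fun z : ℤ => (z : ZMod l)) he
  simp only [Int.cast_add, Int.cast_mul, h0, mul_zero, zero_mul, zero_add, Int.cast_zero] at h1
  rw [qf_cf] at h1
  have h2 : (fun i => ((cv (e 0) (vt e) i : ℤ) : ZMod l)) =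
      cv (0 : ZMod l) (fun i => ((vt e i : ℤ) : ZMod l)) := by
    funext i
    refine Fin.cases ?_ (fun j => ?_) i
    · exact h0
    · rfl
  rw [h2, N.hr (ZMod l)] at h1
  rw [qf_cf, h1]

theorem pf_DVC : T_DVC := by
  intro n F N m0 K
  classical
  refine ⟨(∑ p, |N.r p|).natAbs * K ^ 2 + 1, fun X hX v => ?_⟩
  set S := (EX N m0 K X).filter fun e => vt e = v with hS
  rcases S.eq_empty_or_nonempty with h0 | ⟨e₀, he₀⟩
  · rw [h0]
    simp
  -- the properties of the elements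
  have hmem : ∀ e ∈ S, (∀ i, |e i| ≤ (K * X : ℕ)) ∧
      (∃ m l : ℕ, 1 ≤ m ∧ m ≤ m0 ∧ l.Prime ∧ X < l ∧ l ≤ 4 * X ∧ e 0 = m * l) ∧
      N.mu * e 0 * e 1 + qf N.q (cv (e 0) (vt e)) = 0 ∧ qf N.r (vt e) ≠ 0 ∧ vt e = v := by
    intro e he
    rw [hS] at he
    unfold EX vb at he
    simp only [mem_filter, Fintype.mem_piFinset, mem_Icc] at he
    refine ⟨fun i => abs_le.2 ?_, he.1.2.1, he.1.2.2.1, he.1.2.2.2, he.2⟩
    have := he.1.1 i
    push_cast at this ⊢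
    exact this
  have hr0 : qf N.r v ≠ 0 := by
    obtain ⟨_, _, _, h1, h2⟩ := hmem e₀ he₀
    rw [← h2]
    exact h1
  have hrb : |qf N.r v| < (X : ℤ) ^ 3 := by
    obtain ⟨h1, _, _, _, h2⟩ := hmem e₀ he₀
    have h3 : ∀ i, |v i| ≤ ((K * X : ℕ) : ℤ) := by
      intro i
      rw [← h2]
      exact h1 _
    refine (qf_bound N.r v _ h3).trans_lt ?_
    have h4 : (0 : ℤ) ≤ ∑ p, |N.r p| := sum_nonneg fun p _ => abs_nonneg _
    have h5 : ((∑ p, |N.r p|).natAbs : ℤ) = ∑ p, |N.r p| := Int.natAbs_of_nonneg h4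
    have h6 : (∑ p, |N.r p|) * (K : ℤ) ^ 2 + 1 ≤ X := by
      rw [← h5]
      exact_mod_cast hX
    have h7 : (0 : ℤ) < X := by
      have : (0 : ℤ) ≤ (∑ p, |N.r p|) * (K : ℤ) ^ 2 := by positivity
      linarith
    calc (∑ p, |N.r p|) * ((K * X : ℕ) : ℤ) ^ 2
        = ((∑ p, |N.r p|) * (K : ℤ) ^ 2) * (X : ℤ) ^ 2 := by push_cast; ring
      _ < X * (X : ℤ) ^ 2 := mul_lt_mul_of_pos_right (by linarith) (by positivity)
      _ = (X : ℤ) ^ 3 := by ring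
  set L := (Icc (X + 1) (4 * X)).filter fun l : ℕ => l.Prime ∧ (l : ℤ) ∣ qf N.r v with hL
  have hLc : L.card ≤ 2 := by
    by_contra hc
    push Not at hc
    obtain ⟨a, ha, b, hb, c, hc', hab, hac, hbc⟩ := Finset.two_lt_card.1 hc
    rw [hL, mem_filter, mem_Icc] at ha hb hc'
    have c1 : IsCoprime (a : ℤ) b := Nat.isCoprime_iff_coprime.2 ((Nat.coprime_primes ha.2.1 hb.2.1).2 hab)
    have c2 : IsCoprime (a : ℤ) c := Nat.isCoprime_iff_coprime.2 ((Nat.coprime_primes ha.2.1 hc'.2.1).2 hac)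
    have c3 : IsCoprime (b : ℤ) c := Nat.isCoprime_iff_coprime.2 ((Nat.coprime_primes hb.2.1 hc'.2.1).2 hbc)
    have d1 : (a : ℤ) * b ∣ qf N.r v := c1.mul_dvd ha.2.2 hb.2.2
    have d2 : (a : ℤ) * b * c ∣ qf N.r v := (c2.mul_left c3).mul_dvd d1 hc'.2.2
    have d3 : (a : ℤ) * b * c ≤ |qf N.r v| := by
      have := Int.le_of_dvd (abs_pos.2 hr0) ((dvd_abs _ _).2 d2)
      exact this
    have ha' : (X : ℤ) ≤ a := by exact_mod_cast (by omega : X ≤ a)
    have hb' : (X : ℤ) ≤ b := by exact_mod_cast (by omega : X ≤ b)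
    have hc'' : (X : ℤ) ≤ c := by exact_mod_cast (by omega : X ≤ c)
    have hX0 : (0 : ℤ) ≤ X := by positivity
    have d4 : (X : ℤ) ^ 3 ≤ a * b * c := by
      calc (X : ℤ) ^ 3 = X * X * X := by ring
        _ ≤ a * b * c := mul_le_mul (mul_le_mul ha' hb' hX0 (by positivity)) hc'' hX0
            (by positivity)
    linarith
  have hinj : Set.InjOn (fun e : Fin (n + 2) → ℤ => e 0) (S : Set (Fin (n + 2) → ℤ)) := by
    intro e he e' he' h
    obtain ⟨_, ⟨m, l, hm1, _, hl1, _, _, hml⟩, h2, _, h3⟩ := hmem e he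
    obtain ⟨_, _, h2', _, h3'⟩ := hmem e' he'
    have h : e 0 = e' 0 := h
    rw [← h, h3'] at h2'
    rw [h3] at h2
    have h0 : N.mu * e 0 ≠ 0 := by
      refine mul_ne_zero N.mu0 ?_
      rw [hml]
      have := hl1.pos
      positivity
    have h1 : e 1 = e' 1 := by
      refine mul_left_cancel₀ h0 ?_
      linarith
    funext i
    refine Fin.cases h (fun j => ?_) i
    refine Fin.cases h1 (fun k => ?_) j
    have := congrFun (h3.trans h3'.symm) k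
    exact this
  have himg : S.image (fun e : Fin (n + 2) → ℤ => e 0) ⊆
      ((Icc 1 m0) ×ˢ L).image (fun z : ℕ × ℕ => (z.1 : ℤ) * z.2) := by
    intro z hz
    obtain ⟨e, he, rfl⟩ := mem_image.1 hz
    obtain ⟨_, ⟨m, l, hm1, hm2, hl1, hl2, hl3, hml⟩, h2, _, h3⟩ := hmem e he
    refine mem_image.2 ⟨(m, l), ?_, hml.symm⟩
    rw [mem_product, mem_Icc, hL, mem_filter, mem_Icc]
    refine ⟨⟨hm1, hm2⟩, ⟨by omega, hl3⟩, hl1, ?_⟩
    have := dvd_r N l e (hml ▸ dvd_mul_left _ _) h2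
    rwa [h3] at this
  calc S.card = (S.image (fun e : Fin (n + 2) → ℤ => e 0)).card := (card_image_of_injOn hinj).symm
    _ ≤ (((Icc 1 m0) ×ˢ L).image (fun z : ℕ × ℕ => (z.1 : ℤ) * z.2)).card := card_le_card himg
    _ ≤ ((Icc 1 m0) ×ˢ L).card := card_image_le
    _ = m0 * L.card := by rw [card_product, Nat.card_Icc]; simp
    _ ≤ 2 * m0 := by nlinarith

end Pool.Agent.H27.FQ
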