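import Pool.Agent.H34.FQ.Targets

/-!
Row GSA of hfq_modules: Gauss sums of a nondegenerate quadratic form.
-/

set_option autoImplicit false

open Finset Pool.Agent.H32.RQ Pool.Agent.H34.FQ

namespace Pool.Agent.H27.FQ

theorem dq_dot {R : Type} [CommRing R] {s : ℕ} (f : Mon s → R) (w d : Fin s → R) :
    ∑ j, w j * dq f d j = ∑ p, f p * (w p.1.1 * d p.1.2 + w p.1.2 * d p.1.1) := by
  unfold dq
  simp_rw [mul_sum]
  rw [sum_comm]
  refine sum_congr rfl fun p _ => ?_
  calc ∑ j, w j * (f p * ((if p.1.1 = j then d p.1.2 else 0) + (if p.1.2 = j then d p.1.1 else 0)))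
      = ∑ j, ((if p.1.1 = j then f p * (w j * d p.1.2) else 0) +
          (if p.1.2 = j then f p * (w j * d p.1.1) else 0)) := by
        refine sum_congr rfl fun j _ => ?_
        split_ifs <;> ring
    _ = _ := by
        rw [sum_add_distrib, sum_ite_eq, sum_ite_eq]
        simp only [mem_univ, if_true]
        ring

theorem qf_add {R : Type} [CommRing R] {s : ℕ} (f : Mon s → R) (w d : Fin s → R) :
    qf f (fun i => w i + d i) = qf f w + qf f d + ∑ j, w j * dq f d j := by
  rw [dq_dot]
  unfold qf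
  rw [← sum_add_distrib, ← sum_add_distrib]
  refine sum_congr rfl fun p _ => ?_
  ring

theorem ac_sum {A M ι : Type*} [AddCommMonoid A] [CommMonoid M] (ψ : AddChar A M) (s : Finset ι)
    (f : ι → A) : ψ (∑ i ∈ s, f i) = ∏ i ∈ s, ψ (f i) := by
  classical
  induction s using Finset.induction_on with
  | empty => simp
  | insert a s ha ih => rw [sum_insert ha, prod_insert ha, AddChar.map_add_eq_mul, ih]

theorem sum_char (n l : ℕ) [NeZero l] (b : Fin n → ZMod l) :
    ∑ w : Fin n → ZMod l, ZMod.stdAddChar (∑ i, w i * b i) =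
      if b = 0 then (l : ℂ) ^ n else 0 := by
  have h1 : ∀ w : Fin n → ZMod l, ZMod.stdAddChar (∑ i, w i * b i) =
      ∏ i, (ZMod.stdAddChar (w i * b i) : ℂ) := fun w => ac_sum _ _ _
  simp_rw [h1]
  have h2 : ∑ w : Fin n → ZMod l, ∏ i, (ZMod.stdAddChar (w i * b i) : ℂ) =
      ∏ i, ∑ x : ZMod l, (ZMod.stdAddChar (x * b i) : ℂ) := by
    rw [prod_univ_sum, Fintype.piFinset_univ]
  rw [h2]
  have h3 : ∀ i, ∑ x : ZMod l, (ZMod.stdAddChar (x * b i) : ℂ) =
      if b i = 0 then (l : ℂ) else 0 := by
    intro i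
    rw [AddChar.sum_mulShift (b i) (ZMod.isPrimitive_stdAddChar l), ZMod.card]
    split_ifs <;> simp
  simp_rw [h3]
  by_cases hb : b = 0
  · rw [if_pos hb]
    subst hb
    simp
  · rw [if_neg hb]
    obtain ⟨i, hi⟩ : ∃ i, b i ≠ 0 := by
      by_contra hc
      push Not at hc
      exact hb (funext hc)
    exact prod_eq_zero (mem_univ i) (if_neg hi)

theorem pf_GSA : T_GSA := by
  intro n l _ r t h hl hdet ht
  have : Fact l.Prime := ⟨hl⟩
  set ψ : AddChar (ZMod l) ℂ := ZMod.stdAddChar with hψ
  set H : Matrix (Fin n) (Fin n) (ZMod l) := gr (cf (ZMod l) r) with hH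
  have hdetH : H.det ≠ 0 := by
    intro h0
    apply hdet
    rw [← ZMod.intCast_zmod_eq_zero_iff_dvd _ l]
    have h1 : (((gr r).det : ℤ) : ZMod l) = ((gr r).map (Int.castRingHom (ZMod l))).det := by
      exact RingHom.map_det (Int.castRingHom (ZMod l)) (gr r)
    have h2 : (gr r).map (Int.castRingHom (ZMod l)) = H := by
      ext i j
      exact Pool.Agent.H13.RQ.Hs_map (Int.castRingHom (ZMod l)) r i j
    rw [h1, h2, h0]
  have key : ∀ d : Fin n → ZMod l, (fun i => t * dq (cf (ZMod l) r) d i) = 0 ↔ d = 0 := by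
    intro d
    constructor
    · intro h1
      have h2 : H.mulVec d = 0 := by
        funext i
        have h3 := congrFun h1 i
        simp only [Pi.zero_apply, mul_eq_zero, ht, false_or] at h3
        have h4 := Pool.Agent.H13.RQ.Hs_mulVec (cf (ZMod l) r) d i
        rw [h3] at h4
        exact h4
      exact Matrix.eq_zero_of_mulVec_eq_zero hdetH h2
    · intro h1
      subst h1
      funext i
      simp [dq]
  set φ : (Fin n → ZMod l) → ZMod l := fun w => t * qf (cf (ZMod l) r) w + ∑ i, h i * w i with hφ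
  have h1 : ((‖∑ w, ψ (φ w)‖ ^ 2 : ℝ) : ℂ) = ((l : ℝ) ^ n : ℝ) := by
    rw [← Complex.normSq_eq_norm_sq, ← Complex.mul_conj, map_sum, sum_mul_sum]
    calc ∑ w, ∑ w', ψ (φ w) * (starRingEnd ℂ) (ψ (φ w'))
        = ∑ w', ∑ w, ψ (φ w) * (starRingEnd ℂ) (ψ (φ w')) := sum_comm
      _ = ∑ w', ∑ d, ψ (φ (w' + d)) * (starRingEnd ℂ) (ψ (φ w')) := by
          refine sum_congr rfl fun w' _ => ?_
          exact (Fintype.sum_equiv (Equiv.addLeft w') _ _ fun d => rfl).symm
      _ = ∑ d, ∑ w', ψ (φ (w' + d)) * (starRingEnd ℂ) (ψ (φ w')) := sum_comm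
      _ = ∑ d, ψ (φ d) * ∑ w' : Fin n → ZMod l,
            ψ (∑ i, w' i * (t * dq (cf (ZMod l) r) d i)) := by
          refine sum_congr rfl fun d _ => ?_
          rw [mul_sum]
          refine sum_congr rfl fun w' _ => ?_
          rw [← AddChar.map_neg_eq_conj, ← AddChar.map_add_eq_mul, ← AddChar.map_add_eq_mul]
          congr 1
          have e1 : qf (cf (ZMod l) r) (w' + d) = qf (cf (ZMod l) r) w' + qf (cf (ZMod l) r) d +
              ∑ j, w' j * dq (cf (ZMod l) r) d j := qf_add _ w' d
          have e2 : ∑ i, h i * (w' + d) i = ∑ i, h i * w' i + ∑ i, h i * d i := by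
            rw [← sum_add_distrib]
            refine sum_congr rfl fun i _ => ?_
            rw [Pi.add_apply]
            ring
          have e3 : ∑ i, w' i * (t * dq (cf (ZMod l) r) d i) =
              t * ∑ j, w' j * dq (cf (ZMod l) r) d j := by
            rw [mul_sum]
            refine sum_congr rfl fun i _ => ?_
            ring
          simp only [hφ]
          rw [e1, e2, e3]
          ring
      _ = ψ (φ 0) * (l : ℂ) ^ n := by
          rw [sum_eq_single_of_mem (0 : Fin n → ZMod l) (mem_univ _)]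
          · rw [hψ, sum_char, if_pos ((key 0).2 rfl)]
          · intro d _ hd
            rw [hψ, sum_char, if_neg fun h0 => hd ((key d).1 h0), mul_zero]
      _ = _ := by
          have : φ 0 = 0 := by
            simp [hφ, qf]
          rw [this, AddChar.map_zero_eq_one, one_mul]
          push_cast
          rfl
  exact_mod_cast h1

end Pool.Agent.H27.FQ
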