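import Pool.Agent.H34.FQ.Targets

/-!
Rows UC2 and CR1 of hfq_modules: the local classes.
-/

set_option autoImplicit false

open Finset Pool.Agent.H32.RQ Pool.Agent.H34.FQ

namespace Pool.Agent.H27.FQ.UC2

theorem qf_smul {R : Type} [CommRing R] {s : ℕ} (f : Mon s → R) (c : R) (x : Fin s → R) :
    qf f (fun i => c * x i) = c ^ 2 * qf f x := by
  unfold qf
  rw [mul_sum]
  refine sum_congr rfl fun p _ => ?_
  ring

theorem mv_smul {R : Type} [CommRing R] {s : ℕ} (T : Matrix (Fin s) (Fin s) ℤ) (c : R)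
    (x : Fin s → R) : mv T (fun i => c * x i) = fun i => c * mv T x i := by
  funext i
  unfold mv
  rw [mul_sum]
  refine sum_congr rfl fun j _ => ?_
  ring

theorem cv_smul {R : Type} [CommRing R] {n : ℕ} (c a : R) (v : Fin n → R) :
    cv (c * a) (fun i => c * v i) = fun i => c * cv a v i := by
  funext i
  refine Fin.cases ?_ (fun j => ?_) i <;> rfl

theorem gG_smul {R : Type} [CommRing R] {n : ℕ} {F : Mon (n + 2) → ℤ} (N : NF F)
    (f : Mon (n + 2) → R) (c a : R) (v : Fin n → R) :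
    gG N f (c * a) (fun i => c * v i) = c ^ 4 * gG N f a v := by
  unfold gG
  have h1 : xt N (c * a) (fun i => c * v i) = fun i => c ^ 2 * xt N a v i := by
    unfold xt
    rw [cv_smul, qf_smul, ← mv_smul]
    congr 1
    funext i
    refine Fin.cases ?_ (fun j => ?_) i
    · show (N.mu : R) * (c * a) ^ 2 = c ^ 2 * ((N.mu : R) * a ^ 2)
      ring
    · refine Fin.cases ?_ (fun k => ?_) j
      · show -(c ^ 2 * qf (cf R N.q) (cv a v)) = c ^ 2 * -qf (cf R N.q) (cv a v)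
        ring
      · show (N.mu : R) * (c * a) * (c * v k) = c ^ 2 * ((N.mu : R) * a * v k)
        ring
  rw [h1, qf_smul]
  ring

theorem qf_map {A B : Type} [CommRing A] [CommRing B] (φ : A →+* B) {s : ℕ}
    (f : Mon s → ℤ) (x : Fin s → A) :
    φ (qf (cf A f) x) = qf (cf B f) (fun j => φ (x j)) := by
  simp [qf, cf, map_sum]

theorem mv_map {A B : Type} [CommRing A] [CommRing B] (φ : A →+* B) {s : ℕ}
    (T : Matrix (Fin s) (Fin s) ℤ) (x : Fin s → A) (i : Fin s) :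
    φ (mv T x i) = mv T (fun j => φ (x j)) i := by
  simp [mv, map_sum]

theorem cv_map {A B : Type} {n : ℕ} (φ : A → B) (a : A) (v : Fin n → A) :
    (fun j => φ (cv a v j)) = cv (φ a) (fun i => φ (v i)) := by
  funext i
  refine Fin.cases ?_ (fun j => ?_) i <;> rfl

theorem gG_map {A B : Type} [CommRing A] [CommRing B] (φ : A →+* B) {n : ℕ}
    {F : Mon (n + 2) → ℤ} (N : NF F) (f : Mon (n + 2) → ℤ) (a : A) (v : Fin n → A) :
    φ (gG N (cf A f) a v) = gG N (cf B f) (φ a) (fun i => φ (v i)) := by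
  unfold gG
  rw [qf_map]
  congr 1
  funext j
  unfold xt
  rw [mv_map]
  congr 1
  funext i
  refine Fin.cases ?_ (fun j => ?_) i
  · show φ ((N.mu : A) * a ^ 2) = (N.mu : B) * φ a ^ 2
    simp
  · refine Fin.cases ?_ (fun k => ?_) j
    · show φ (-qf (cf A N.q) (cv a v)) = -qf (cf B N.q) (cv (φ a) fun i => φ (v i))
      rw [map_neg, qf_map, cv_map]
    · show φ ((N.mu : A) * a * v k) = (N.mu : B) * φ a * φ (v k)
      simp

theorem cf_int {s : ℕ} (f : Mon s → ℤ) : cf ℤ f = f := by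
  funext p
  simp [cf]

theorem qf_cast {s : ℕ} (M : ℕ) (f : Mon s → ℤ) (x : Fin s → ℤ) :
    ((qf f x : ℤ) : ZMod M) = qf (cf (ZMod M) f) (fun j => (x j : ZMod M)) := by
  have := qf_map (Int.castRingHom (ZMod M)) f x
  rwa [cf_int] at this

theorem gG_cast {n : ℕ} {F : Mon (n + 2) → ℤ} (N : NF F) (M : ℕ) (f : Mon (n + 2) → ℤ) (a : ℤ)
    (v : Fin n → ℤ) :
    ((gG N f a v : ℤ) : ZMod M) = gG N (cf (ZMod M) f) (a : ZMod M) (fun i => (v i : ZMod M)) := by
  have := gG_map (Int.castRingHom (ZMod M)) N f a v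
  rwa [cf_int] at this

theorem pf_UC2 : T_UC2 := by
  intro n F N f m M _ hM
  classical
  have hcop : m.Coprime M := by
    refine Nat.Coprime.symm (Nat.coprime_of_dvd fun p hp h1 h2 => ?_)
    exact hM p hp h1 (Dvd.dvd.mul_left (by exact_mod_cast h2) _)
  have hu : ((m : ℕ) : ZMod M)⁻¹ * (m : ZMod M) = 1 := by
    rw [mul_comm]
    exact ZMod.coe_mul_inv_eq_one m hcop
  have hu' : (m : ZMod M) * ((m : ℕ) : ZMod M)⁻¹ = 1 := ZMod.coe_mul_inv_eq_one m hcop
  have hIP : ∀ u : Fin n → ℤ, ∀ p : ℕ, p.Prime → p ∣ M → IP N p m u := by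
    intro u p hp hpM
    have h0 := hM p hp hpM
    refine ⟨fun k hk => ?_, fun h1 _ => absurd (Dvd.dvd.mul_left h1 _) h0⟩
    rcases Nat.eq_zero_or_pos k with h1 | h1
    · subst h1
      simp
    · exact absurd ((dvd_pow_self (p : ℤ) (by omega)).trans hk) h0
  have hkey : ∀ w : Fin n → ZMod M, gG N (cf (ZMod M) f) (m : ZMod M) (fun i => (m : ZMod M) * w i) = 0 ↔
      gG N (cf (ZMod M) f) 1 w = 0 := by
    intro w
    have h1 := gG_smul N (cf (ZMod M) f) (m : ZMod M) 1 w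
    rw [mul_one] at h1
    rw [h1]
    constructor
    · intro h2
      have h3 : ((m : ZMod M)⁻¹ * (m : ZMod M)) ^ 4 * gG N (cf (ZMod M) f) 1 w = 0 := by
        rw [mul_pow, mul_assoc, h2, mul_zero]
      rwa [hu, one_pow, one_mul] at h3
    · intro h2
      rw [h2, mul_zero]
  unfold UU aN
  refine Finset.card_nbij' (fun u i => (m : ZMod M)⁻¹ * (u i : ZMod M))
    (fun w i => (((m : ZMod M) * w i).val : ℤ)) ?_ ?_ ?_ ?_
  · intro u hu1
    simp only [coe_filter, Fintype.mem_piFinset, mem_Ico, Set.mem_ofPred_eq, mem_univ,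
      true_and] at hu1 ⊢
    rw [← hkey]
    have h1 : (fun i => (m : ZMod M) * ((m : ZMod M)⁻¹ * (u i : ZMod M))) =
        fun i => (u i : ZMod M) := by
      funext i
      rw [← mul_assoc, hu', one_mul]
    rw [h1]
    have h2 := (ZMod.intCast_zmod_eq_zero_iff_dvd _ M).2 hu1.2.1
    rw [gG_cast] at h2
    rw [← h2]
    norm_cast
  · intro w hw
    simp only [coe_filter, Fintype.mem_piFinset, mem_Ico, Set.mem_ofPred_eq, mem_univ,
      true_and] at hw ⊢
    refine ⟨fun i => ⟨by positivity, ?_⟩, ?_, hIP _⟩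
    · exact_mod_cast ZMod.val_lt _
    · rw [← ZMod.intCast_zmod_eq_zero_iff_dvd, gG_cast]
      have h1 : (fun i => (((((m : ZMod M) * w i).val : ℕ) : ℤ) : ZMod M)) =
          fun i => (m : ZMod M) * w i := by
        funext i
        rw [Int.cast_natCast, ZMod.natCast_zmod_val]
      rw [h1, Int.cast_natCast]
      exact (hkey w).2 hw
  · intro u hu1
    simp only [coe_filter, Fintype.mem_piFinset, mem_Ico, Set.mem_ofPred_eq] at hu1
    funext i
    show ((((m : ZMod M) * ((m : ZMod M)⁻¹ * (u i : ZMod M))).val : ℕ) : ℤ) = u i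
    rw [← mul_assoc, hu', one_mul]
    obtain ⟨k, hk⟩ := Int.eq_ofNat_of_zero_le (hu1.1 i).1
    have h2 := (hu1.1 i).2
    rw [hk] at h2 ⊢
    have h3 : k < M := by exact_mod_cast h2
    rw [Int.cast_natCast, ZMod.val_natCast, Nat.mod_eq_of_lt h3]
  · intro w _
    funext i
    show (m : ZMod M)⁻¹ * ((((((m : ZMod M) * w i).val : ℕ) : ℤ)) : ZMod M) = w i
    rw [Int.cast_natCast, ZMod.natCast_zmod_val, ← mul_assoc, hu, one_mul]

theorem cast_eq_iff (M : ℕ) (a b : ℤ) : (M : ℤ) ∣ a - b ↔ (a : ZMod M) = (b : ZMod M) := by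
  rw [← ZMod.intCast_zmod_eq_zero_iff_dvd, Int.cast_sub, sub_eq_zero]

theorem IP_congr {n : ℕ} {F : Mon (n + 2) → ℤ} (N : NF F) {p M : ℕ} {c : ℤ} {u u' : Fin n → ℤ}
    (hM : ∀ k : ℕ, (p : ℤ) ^ k ∣ N.mu * c → (p : ℤ) ^ (k + 1) ∣ (M : ℤ))
    (hu : ∀ i, (M : ℤ) ∣ u i - u' i) (h : IP N p c u) : IP N p c u' := by
  have hq : (M : ℤ) ∣ qf N.q (cv c u) - qf N.q (cv c u') := by
    rw [cast_eq_iff, qf_cast, qf_cast]
    congr 1
    funext j
    refine Fin.cases rfl (fun i => ?_) j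
    exact (cast_eq_iff M _ _).1 (hu i)
  refine ⟨fun k hk => ?_, fun h1 h2 h3 => ?_⟩
  · have h4 : (p : ℤ) ^ k ∣ (M : ℤ) := (pow_dvd_pow _ (Nat.le_succ k)).trans (hM k hk)
    have h5 := dvd_sub (h.1 k hk) (h4.trans hq)
    rwa [sub_sub_cancel] at h5
  · refine h.2 h1 (fun i => ?_) fun k hk => ?_
    · have h4 : (p : ℤ) ∣ (M : ℤ) := by
        have := hM 0 (by simp)
        rwa [zero_add, pow_one] at this
      have h5 := dvd_add (h2 i) (h4.trans (hu i))
      rwa [add_sub_cancel] at h5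
    · have h5 := dvd_add (h3 k hk) ((hM k hk).trans hq)
      rwa [add_sub_cancel] at h5

theorem IP_congr_iff {n : ℕ} {F : Mon (n + 2) → ℤ} (N : NF F) {p M : ℕ} {c : ℤ}
    {u u' : Fin n → ℤ} (hM : ∀ k : ℕ, (p : ℤ) ^ k ∣ N.mu * c → (p : ℤ) ^ (k + 1) ∣ (M : ℤ))
    (hu : ∀ i, (M : ℤ) ∣ u i - u' i) : IP N p c u ↔ IP N p c u' :=
  ⟨IP_congr N hM hu, IP_congr N hM fun i => by
    have := hu i
    rw [← dvd_neg] at this
    rwa [neg_sub] at this⟩

theorem gG_congr {n : ℕ} {F : Mon (n + 2) → ℤ} (N : NF F) (f : Mon (n + 2) → ℤ) {M : ℕ} {c : ℤ}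
    {u u' : Fin n → ℤ} (hu : ∀ i, (M : ℤ) ∣ u i - u' i) :
    (M : ℤ) ∣ gG N f c u ↔ (M : ℤ) ∣ gG N f c u' := by
  rw [← ZMod.intCast_zmod_eq_zero_iff_dvd, ← ZMod.intCast_zmod_eq_zero_iff_dvd, gG_cast, gG_cast]
  have : (fun i => (u i : ZMod M)) = fun i => (u' i : ZMod M) := by
    funext i
    exact (cast_eq_iff M _ _).1 (hu i)
  rw [this]

/-- the two conditions in the definition of `UU` -/
def Cd {n : ℕ} {F : Mon (n + 2) → ℤ} (N : NF F) (m M : ℕ) (f : Mon (n + 2) → ℤ)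
    (u : Fin n → ℤ) : Prop :=
  (M : ℤ) ∣ gG N f (m : ℤ) u ∧ ∀ p : ℕ, p.Prime → p ∣ M → IP N p m u

theorem mem_UU {n : ℕ} {F : Mon (n + 2) → ℤ} (N : NF F) (m M : ℕ) (f : Mon (n + 2) → ℤ)
    (u : Fin n → ℤ) : u ∈ UU N m M f ↔ (∀ i, 0 ≤ u i ∧ u i < M) ∧ Cd N m M f u := by
  unfold UU Cd
  simp only [mem_filter, Fintype.mem_piFinset, mem_Ico]

theorem Cd_congr {n : ℕ} {F : Mon (n + 2) → ℤ} (N : NF F) (f : Mon (n + 2) → ℤ) {m M : ℕ}
    {u u' : Fin n → ℤ}
    (hM : ∀ p k : ℕ, p.Prime → p ∣ M → (p : ℤ) ^ k ∣ N.mu * m → (p : ℤ) ^ (k + 1) ∣ (M : ℤ))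
    (hu : ∀ i, (M : ℤ) ∣ u i - u' i) : Cd N m M f u ↔ Cd N m M f u' := by
  unfold Cd
  rw [gG_congr N f hu]
  refine and_congr_right fun _ => forall_congr' fun p => forall_congr' fun hp =>
    forall_congr' fun hpM => IP_congr_iff N (fun k => hM p k hp hpM) hu

theorem pf_CR1 : T_CR1 := by
  intro n F N f m M M' hm hM0 hM0' hco hv
  classical
  have hM1 : ∀ p k : ℕ, p.Prime → p ∣ M → (p : ℤ) ^ k ∣ N.mu * m →
      (p : ℤ) ^ (k + 1) ∣ (M : ℤ) := by
    intro p k hp hpM hk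
    have h1 := hv p k hp (hpM.mul_right _) hk
    have h2 : Nat.Coprime (p ^ (k + 1)) M' :=
      Nat.Coprime.pow_left _ (Nat.Coprime.coprime_dvd_left hpM hco)
    exact_mod_cast h2.dvd_of_dvd_mul_right h1
  have hM1' : ∀ p k : ℕ, p.Prime → p ∣ M' → (p : ℤ) ^ k ∣ N.mu * m →
      (p : ℤ) ^ (k + 1) ∣ (M' : ℤ) := by
    intro p k hp hpM hk
    have h1 := hv p k hp (hpM.mul_left _) hk
    have h2 : Nat.Coprime (p ^ (k + 1)) M :=
      Nat.Coprime.pow_left _ (Nat.Coprime.coprime_dvd_left hpM hco.symm)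
    exact_mod_cast h2.dvd_of_dvd_mul_left h1
  have hMz : (0 : ℤ) < M := by exact_mod_cast hM0
  have hMz' : (0 : ℤ) < M' := by exact_mod_cast hM0'
  have hcoz : IsCoprime (M : ℤ) M' := Nat.isCoprime_iff_coprime.2 hco
  -- the conditions split
  have hsplit : ∀ u : Fin n → ℤ, Cd N m (M * M') f u ↔ Cd N m M f u ∧ Cd N m M' f u := by
    intro u
    unfold Cd
    push_cast
    constructor
    · rintro ⟨h1, h2⟩
      exact ⟨⟨(dvd_mul_right _ _).trans h1, fun p hp h => h2 p hp (h.mul_right _)⟩,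
        ⟨(dvd_mul_left _ _).trans h1, fun p hp h => h2 p hp (h.mul_left _)⟩⟩
    · rintro ⟨⟨h1, h2⟩, ⟨h3, h4⟩⟩
      refine ⟨hcoz.mul_dvd h1 h3, fun p hp h => ?_⟩
      rcases (Nat.Prime.dvd_mul hp).1 h with h5 | h5
      · exact h2 p hp h5
      · exact h4 p hp h5
  rw [← card_product]
  refine Finset.card_bij (fun u _ => (fun i => u i % (M : ℤ), fun i => u i % (M' : ℤ))) ?_ ?_ ?_
  · intro u hu
    rw [mem_UU] at hu
    obtain ⟨h1, h2⟩ := (hsplit u).1 hu.2
    rw [mem_product, mem_UU, mem_UU]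
    refine ⟨⟨fun i => ⟨Int.emod_nonneg _ hMz.ne', Int.emod_lt_of_pos _ hMz⟩, ?_⟩,
      ⟨fun i => ⟨Int.emod_nonneg _ hMz'.ne', Int.emod_lt_of_pos _ hMz'⟩, ?_⟩⟩
    · exact (Cd_congr N f hM1 fun i => Int.dvd_self_sub_emod).1 h1
    · exact (Cd_congr N f hM1' fun i => Int.dvd_self_sub_emod).1 h2
  · intro u hu u' hu' h
    rw [mem_UU] at hu hu'
    rw [Prod.mk.injEq] at h
    funext i
    have h1 : (M : ℤ) ∣ u i - u' i := by
      have h1 := congrFun h.1 i
      exact Int.ModEq.dvd (Int.ModEq.symm h1)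
    have h2 : (M' : ℤ) ∣ u i - u' i := by
      have h1 := congrFun h.2 i
      exact Int.ModEq.dvd (Int.ModEq.symm h1)
    have h3 : (M : ℤ) * M' ∣ u i - u' i := hcoz.mul_dvd h1 h2
    have h4 := hu.1 i
    have h5 := hu'.1 i
    push_cast at h4 h5
    have h6 : u i - u' i = 0 := by
      refine Int.eq_zero_of_abs_lt_dvd h3 (abs_lt.2 ⟨?_, ?_⟩)
      · linarith [h4.1, h5.2]
      · linarith [h4.2, h5.1]
    linarith
  · rintro ⟨a, b⟩ hab
    rw [mem_product, mem_UU, mem_UU] at hab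
    obtain ⟨⟨ha1, ha2⟩, ⟨hb1, hb2⟩⟩ := hab
    dsimp only at ha1 ha2 hb1 hb2
    obtain ⟨r, s, hrs⟩ := hcoz
    have hz : ∀ i, ∃ z : ℤ, 0 ≤ z ∧ z < (M * M' : ℕ) ∧ z % M = a i ∧ z % M' = b i := by
      intro i
      refine ⟨(b i * (r * M) + a i * (s * M')) % ((M * M' : ℕ) : ℤ), Int.emod_nonneg _ ?_,
        Int.emod_lt_of_pos _ ?_, ?_, ?_⟩
      · push_cast
        positivity
      · push_cast
        positivity
      · rw [Int.emod_emod_of_dvd _ (by push_cast; exact dvd_mul_right _ _)]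
        have e1 : b i * (r * M) + a i * (s * M') = a i + M * ((b i - a i) * r) := by
          have : s * (M' : ℤ) = 1 - r * M := by linarith
          rw [this]
          ring
        rw [e1, Int.add_mul_emod_self_left]
        exact Int.emod_eq_of_lt (ha1 i).1 (ha1 i).2
      · rw [Int.emod_emod_of_dvd _ (by push_cast; exact dvd_mul_left _ _)]
        have e1 : b i * (r * M) + a i * (s * M') = b i + M' * ((a i - b i) * s) := by
          have : r * (M : ℤ) = 1 - s * M' := by linarith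
          rw [this]
          ring
        rw [e1, Int.add_mul_emod_self_left]
        exact Int.emod_eq_of_lt (hb1 i).1 (hb1 i).2
    choose z hz1 hz2 hz3 hz4 using hz
    have e1 : (fun i => z i % (M : ℤ)) = a := funext hz3
    have e2 : (fun i => z i % (M' : ℤ)) = b := funext hz4
    refine ⟨z, ?_, by rw [e1, e2]⟩
    rw [mem_UU]
    refine ⟨fun i => ⟨hz1 i, hz2 i⟩, (hsplit z).2 ⟨?_, ?_⟩⟩
    · refine (Cd_congr N f hM1 fun i => ?_).2 ha2
      have := hz3 i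
      rw [← this]
      exact Int.dvd_self_sub_emod
    · refine (Cd_congr N f hM1' fun i => ?_).2 hb2
      have := hz4 i
      rw [← this]
      exact Int.dvd_self_sub_emod

end Pool.Agent.H27.FQ.UC2
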